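import Pool.Agent.H80.JE.Targets

/-!
# Second order terms against first order terms
-/

set_option autoImplicit false

namespace Pool.Agent.H74.JE

open Finset Filter Topology Pool.Agent.H80.JD Pool.Agent.H80.JE

theorem abs_ : T_ABS := by
  classical
  intro m L B q w hm hL hB hq hq4 hw hw2
  obtain ⟨s, hs⟩ : ∃ s, s = Real.sqrt m := ⟨_, rfl⟩
  have hmR : (1 : ℝ) ≤ m := by exact_mod_cast hm
  have hs1 : 1 ≤ s := by
    rw [hs]
    exact Real.one_le_sqrt.2 hmR
  have hs2 : s ^ 2 = m := by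
    rw [hs]
    exact Real.sq_sqrt (by linarith)
  have hs0 : 0 < s := by linarith
  have hL0 : 0 < L := by linarith
  rw [← hs] at hB ⊢
  have hB0 : 0 < B := by
    rw [hB]
    positivity
  rw [← hs2] at hq4 ⊢
  obtain ⟨W, hW⟩ : ∃ W, W = ∑ j, w j ^ 2 := ⟨_, rfl⟩
  have hW0 : 0 ≤ W := by
    rw [hW]
    exact sum_nonneg fun j _ => sq_nonneg _
  rw [← hW]
  have hq4j : ∀ j, q j ^ 4 ≤ 128 * s ^ 2 := by
    intro j
    refine le_trans ?_ hq4
    exact single_le_sum (f := fun j => q j ^ 4) (fun i _ => by have := hq i; positivity)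
      (mem_univ j)
  have hss : s ^ 2 ≤ s ^ 4 := pow_le_pow_right₀ hs1 (by norm_num)
  have hq4s : ∀ j, q j ≤ 4 * s := by
    intro j
    have h1 : q j ^ 4 ≤ (4 * s) ^ 4 := by
      have := hq4j j
      nlinarith
    exact le_of_pow_le_pow_left₀ (by norm_num) (by positivity) h1
  have hq2s : ∀ j, q j ^ 2 ≤ 1132 / 100 * s := by
    intro j
    have h1 : (q j ^ 2) ^ 2 ≤ (1132 / 100 * s) ^ 2 := by
      have := hq4j j
      have h2 : 0 ≤ s ^ 2 := by positivity
      nlinarith
    exact le_of_pow_le_pow_left₀ (by norm_num) (by positivity) h1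
  -- the two parts
  have hsplit : ∀ f : Fin m → ℝ, ∑ j, f j =
      ∑ j ∈ univ.filter (fun j => 2 ≤ q j), f j +
        ∑ j ∈ univ.filter (fun j => ¬ 2 ≤ q j), f j := fun f =>
    (sum_filter_add_sum_filter_not _ _ _).symm
  have hH10 : ∑ j ∈ univ.filter (fun j => 2 ≤ q j), q j ^ 10 ≤ B ^ 2 / 16 * W := by
    have h1 : ∑ j ∈ univ.filter (fun j => 2 ≤ q j), q j ^ 10 ≤
        ∑ j ∈ univ.filter (fun j => 2 ≤ q j), B ^ 2 / 16 * w j ^ 2 := by
      apply sum_le_sum
      intro j hj
      have h2 := hw2 j (mem_filter.1 hj).2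
      have h3 : q j ^ 10 = B ^ 2 / 16 * (16 / B ^ 2 * q j ^ 10) := by
        field_simp
      rw [h3]
      gcongr
    refine h1.trans ?_
    rw [← mul_sum]
    have h2 : ∑ j ∈ univ.filter (fun j => 2 ≤ q j), w j ^ 2 ≤ W := by
      rw [hW]
      exact sum_le_sum_of_subset_of_nonneg (filter_subset _ _) fun j _ _ => sq_nonneg _
    gcongr
  have hH4 : ∑ j ∈ univ.filter (fun j => 2 ≤ q j), q j ^ 4 ≤ 128 * s ^ 2 := by
    refine le_trans ?_ hq4
    exact sum_le_sum_of_subset_of_nonneg (filter_subset _ _) fun j _ _ => by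
      have := hq j
      positivity
  refine ⟨?_, ?_, ?_, ?_, ?_⟩
  · intro j
    have h1 : q j ^ 4 ≤ (B / 24) ^ 4 := by
      refine (hq4j j).trans ?_
      rw [hB]
      have h2 : (100 : ℝ) ^ 4 ≤ L ^ 4 := pow_le_pow_left₀ (by norm_num) hL 4
      have h3 : (L * s / 24) ^ 4 = L ^ 4 / 331776 * s ^ 4 := by ring
      rw [h3]
      calc 128 * s ^ 2 ≤ 128 * s ^ 4 := by gcongr
        _ ≤ L ^ 4 / 331776 * s ^ 4 := by
            gcongr
            rw [le_div_iff₀ (by norm_num)]
            norm_num at h2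
            linarith
    exact le_of_pow_le_pow_left₀ (by norm_num) (by positivity) h1
  · -- the sixth powers
    have hlow : ∑ j ∈ univ.filter (fun j => ¬ 2 ≤ q j), q j ^ 6 ≤ 512 * s ^ 2 := by
      have h1 : ∑ j ∈ univ.filter (fun j => ¬ 2 ≤ q j), q j ^ 6 ≤
          ∑ j ∈ univ.filter (fun j => ¬ 2 ≤ q j), 4 * q j ^ 4 := by
        apply sum_le_sum
        intro j hj
        have h2 : q j < 2 := not_le.1 (mem_filter.1 hj).2
        have h3 := hq j
        have h4 : q j ^ 2 ≤ 4 := by nlinarith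
        have h5 : 0 ≤ q j ^ 4 := by positivity
        calc q j ^ 6 = q j ^ 2 * q j ^ 4 := by ring
          _ ≤ 4 * q j ^ 4 := by gcongr
      refine h1.trans ?_
      rw [← mul_sum]
      have h6 : ∑ j ∈ univ.filter (fun j => ¬ 2 ≤ q j), q j ^ 4 ≤ 128 * s ^ 2 := by
        refine le_trans ?_ hq4
        exact sum_le_sum_of_subset_of_nonneg (filter_subset _ _) fun j _ _ => by
          have := hq j
          positivity
      linarith
    have hH2 : ∑ j ∈ univ.filter (fun j => 2 ≤ q j), q j ^ 2 ≤ 32 * s ^ 2 := by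
      have h1 : ∑ j ∈ univ.filter (fun j => 2 ≤ q j), q j ^ 2 ≤
          ∑ j ∈ univ.filter (fun j => 2 ≤ q j), 1 / 4 * q j ^ 4 := by
        apply sum_le_sum
        intro j hj
        have h2 : 2 ≤ q j := (mem_filter.1 hj).2
        have h4 : 4 ≤ q j ^ 2 := by nlinarith
        have h5 : 0 ≤ q j ^ 2 := by positivity
        nlinarith
      refine h1.trans ?_
      rw [← mul_sum]
      linarith
    have hCS := sum_mul_sq_le_sq_mul_sq (univ.filter (fun j => 2 ≤ q j)) (fun j => q j ^ 5)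
      (fun j => q j)
    have e1 : ∀ j, q j ^ 5 * q j = q j ^ 6 := fun j => by ring
    have e2 : ∀ j, (q j ^ 5) ^ 2 = q j ^ 10 := fun j => by ring
    simp only [e1, e2] at hCS
    have hH6 : ∑ j ∈ univ.filter (fun j => 2 ≤ q j), q j ^ 6 ≤
        1415 / 1000 * (B * s * Real.sqrt W) := by
      have h0 : 0 ≤ ∑ j ∈ univ.filter (fun j => 2 ≤ q j), q j ^ 2 :=
        sum_nonneg fun j _ => sq_nonneg _
      have h1 : (∑ j ∈ univ.filter (fun j => 2 ≤ q j), q j ^ 6) ^ 2 ≤
          (1415 / 1000 * (B * s * Real.sqrt W)) ^ 2 := by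
        refine hCS.trans ?_
        calc _ ≤ (B ^ 2 / 16 * W) * (32 * s ^ 2) := by gcongr
          _ = 2 * (B ^ 2 * s ^ 2 * W) := by ring
          _ ≤ (1415 / 1000) ^ 2 * (B ^ 2 * s ^ 2 * W) := by
              have : 0 ≤ B ^ 2 * s ^ 2 * W := by positivity
              nlinarith
          _ = _ := by
              have h2 : Real.sqrt W ^ 2 = W := Real.sq_sqrt hW0
              calc _ = (1415 / 1000) ^ 2 * (B ^ 2 * s ^ 2 * Real.sqrt W ^ 2) := by rw [h2]
                _ = _ := by ring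
      exact le_of_pow_le_pow_left₀ (by norm_num) (by positivity) h1
    rw [hsplit (fun j => q j ^ 6)]
    have hR0 : 0 ≤ Real.sqrt W := Real.sqrt_nonneg _
    calc 148 / B ^ 2 * (∑ j ∈ univ.filter (fun j => 2 ≤ q j), q j ^ 6 +
          ∑ j ∈ univ.filter (fun j => ¬ 2 ≤ q j), q j ^ 6)
        ≤ 148 / B ^ 2 * (1415 / 1000 * (B * s * Real.sqrt W) + 512 * s ^ 2) := by gcongr
      _ = 148 * (1415 / 1000) / L * Real.sqrt W + 75776 / L ^ 2 := by
          rw [hB]
          field_simp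
          ring
      _ ≤ _ := by
          gcongr
          norm_num
  · intro h32
    have hlow : ∑ j ∈ univ.filter (fun j => ¬ 2 ≤ q j), q j ^ 4 ≤ 16 * s ^ 2 := by
      have h1 : ∑ j ∈ univ.filter (fun j => ¬ 2 ≤ q j), q j ^ 4 ≤
          ∑ j ∈ univ.filter (fun j => ¬ 2 ≤ q j), (16 : ℝ) := by
        apply sum_le_sum
        intro j hj
        have h2 : q j < 2 := not_le.1 (mem_filter.1 hj).2
        have h3 := pow_le_pow_left₀ (hq j) h2.le 4
        norm_num at h3
        exact h3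
      refine h1.trans ?_
      rw [sum_const, nsmul_eq_mul]
      have h2 : ((univ.filter (fun j : Fin m => ¬ 2 ≤ q j)).card : ℝ) ≤ m := by
        have := card_filter_le (univ : Finset (Fin m)) (fun j => ¬ 2 ≤ q j)
        rw [card_univ, Fintype.card_fin] at this
        exact_mod_cast this
      rw [← hs2] at h2
      linarith
    have h4 : 16 * s ^ 2 ≤ ∑ j ∈ univ.filter (fun j => 2 ≤ q j), q j ^ 4 := by
      have := hsplit (fun j => q j ^ 4)
      linarith
    have h10 : 1024 * s ^ 2 ≤ ∑ j ∈ univ.filter (fun j => 2 ≤ q j), q j ^ 10 := by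
      have h1 : ∑ j ∈ univ.filter (fun j => 2 ≤ q j), 64 * q j ^ 4 ≤
          ∑ j ∈ univ.filter (fun j => 2 ≤ q j), q j ^ 10 := by
        apply sum_le_sum
        intro j hj
        have h2 : 2 ≤ q j := (mem_filter.1 hj).2
        have h3 := pow_le_pow_left₀ (by norm_num) h2 6
        norm_num at h3
        have h5 : 0 ≤ q j ^ 4 := by positivity
        calc 64 * q j ^ 4 ≤ q j ^ 6 * q j ^ 4 := by gcongr
          _ = q j ^ 10 := by ring
      rw [← mul_sum] at h1
      linarith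
    have h5 : 16384 / L ^ 2 ≤ W := by
      have h6 := h10.trans hH10
      rw [hB] at h6
      have h7 : (L * s) ^ 2 / 16 * W = L ^ 2 / 16 * W * s ^ 2 := by ring
      rw [h7] at h6
      have h8 : 1024 ≤ L ^ 2 / 16 * W := le_of_mul_le_mul_right h6 (by positivity)
      rw [div_le_iff₀ (by positivity)]
      linarith
    have h6 : 128 / L = Real.sqrt (16384 / L ^ 2) := by
      rw [show (16384 : ℝ) / L ^ 2 = (128 / L) ^ 2 by
        rw [div_pow]
        norm_num]
      exact (Real.sqrt_sq (by positivity)).symm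
    rw [h6]
    exact Real.sqrt_le_sqrt h5
  · have h1 : ∀ j, w j ^ 2 ≤ 64 / B ^ 2 * (1451 * s ^ 3) * q j ^ 4 := by
      intro j
      have hq0 := hq j
      have h2 : w j ^ 2 ≤ (8 / B * q j ^ 5) ^ 2 := by
        rw [← sq_abs (w j)]
        exact pow_le_pow_left₀ (abs_nonneg _) (hw j) 2
      have h3 : q j ^ 6 ≤ 1451 * s ^ 3 := by
        have h4 := pow_le_pow_left₀ (by positivity) (hq2s j) 3
        calc q j ^ 6 = (q j ^ 2) ^ 3 := by ring
          _ ≤ (1132 / 100 * s) ^ 3 := h4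
          _ = (1132 / 100) ^ 3 * s ^ 3 := by ring
          _ ≤ _ := by
              gcongr
              norm_num
      calc w j ^ 2 ≤ (8 / B * q j ^ 5) ^ 2 := h2
        _ = 64 / B ^ 2 * q j ^ 6 * q j ^ 4 := by
            field_simp
            ring
        _ ≤ _ := by gcongr
    calc W = ∑ j, w j ^ 2 := hW
      _ ≤ ∑ j, 64 / B ^ 2 * (1451 * s ^ 3) * q j ^ 4 := sum_le_sum fun j _ => h1 j
      _ = 64 / B ^ 2 * (1451 * s ^ 3) * ∑ j, q j ^ 4 := by rw [mul_sum]
      _ ≤ 64 / B ^ 2 * (1451 * s ^ 3) * (128 * s ^ 2) := by gcongr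
      _ = 64 * 1451 * 128 / L ^ 2 * (s ^ 2 * s) := by
          rw [hB]
          field_simp
      _ ≤ _ := by
          gcongr
          norm_num
  · have h1 : ∀ j, |w j| ≤ 8 / B * (4 * s) * q j ^ 4 := by
      intro j
      have hq0 := hq j
      calc |w j| ≤ 8 / B * q j ^ 5 := hw j
        _ = 8 / B * q j * q j ^ 4 := by ring
        _ ≤ _ := by
            gcongr
            exact hq4s j
    calc ∑ j, |w j| ≤ ∑ j, 8 / B * (4 * s) * q j ^ 4 := sum_le_sum fun j _ => h1 j
      _ = 8 / B * (4 * s) * ∑ j, q j ^ 4 := by rw [mul_sum]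
      _ ≤ 8 / B * (4 * s) * (128 * s ^ 2) := by gcongr
      _ = 4096 / L * s ^ 2 := by
          rw [hB]
          field_simp
          ring

end Pool.Agent.H74.JE
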